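import Pool.Agent.Y245.SC.Stm2

/-!
# SC-BOOT2 (job 6639, helper779 for helper245): growth of exponent less than one improves to
boundedness, near a horizontal segment

One step, with no iteration of the exponent: near the end point the Volterra equation is linear in
`sup |F|`, with the integrable weight `(ℓ + x)^(-α)`.
-/

set_option autoImplicit false

open Complex MeasureTheory Metric Set Filter Topology ComplexConjugate

namespace Pool.Agent.Y779.SC

open Pool.Agent.Y245.SC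

lemma exp_mem {ω : ℂ} {ℓ : ℝ} (h : ω.re < ℓ) : exp ω ∈ ball (0 : ℂ) (Real.exp ℓ) := by
  rw [mem_ball_zero_iff, Complex.norm_exp]
  exact Real.exp_lt_exp.2 h

lemma exp_mem1 {ω : ℂ} (h : ω.re ≤ 0) : exp ω ∈ closedBall (0 : ℂ) 1 := by
  rw [mem_closedBall_zero_iff, Complex.norm_exp]
  exact Real.exp_le_one_iff.2 h

lemma fc_diff {φ : ℂ → ℂ} {ℓ : ℝ} (hφ : DifferentiableOn ℂ φ (ball 0 (Real.exp ℓ))) {ω : ℂ}
    (hω : -ℓ < ω.re) : DifferentiableAt ℂ (Fc φ) ω := by
  have h2 : DifferentiableAt ℂ (fun v => φ (exp (-v))) (conj ω) := by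
    have hm : exp (-(conj ω)) ∈ ball (0 : ℂ) (Real.exp ℓ) := by
      apply exp_mem
      simp only [neg_re, conj_re]
      linarith
    have h3 : DifferentiableAt ℂ φ (exp (-(conj ω))) :=
      (hφ _ hm).differentiableAt (isOpen_ball.mem_nhds hm)
    exact DifferentiableAt.comp (conj ω) h3 (differentiableAt_id.neg.cexp)
  have h3 := h2.conj_conj
  rw [Complex.conj_conj] at h3
  exact h3

lemma exp_lip {ω ω0 : ℂ} (h : ω.re ≤ 0) (h0 : ω0.re ≤ 0) : ‖exp ω - exp ω0‖ ≤ ‖ω - ω0‖ := by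
  have hc : Convex ℝ {z : ℂ | z.re ≤ 0} := convex_halfSpace_re_le 0
  have h1 := hc.norm_image_sub_le_of_norm_deriv_le (𝕜 := ℂ) (f := exp) (C := 1) (x := ω0) (y := ω)
    (fun x _ => Complex.differentiableAt_exp) (fun x hx => by
      rw [Complex.deriv_exp, Complex.norm_exp]
      exact Real.exp_le_one_iff.2 hx) h0 h
  rwa [one_mul] at h1

lemma phi_lip {φ : ℂ → ℂ} {ℓ : ℝ} (hℓ : 0 < ℓ) (hφ : DifferentiableOn ℂ φ (ball 0 (Real.exp ℓ)))
    {B1 : ℝ} (hB1 : ∀ w ∈ closedBall (0 : ℂ) 1, ‖deriv φ w‖ ≤ B1) {ω ω0 : ℂ} (h : ω.re ≤ 0)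
    (h0 : ω0.re ≤ 0) : ‖φ (exp ω) - φ (exp ω0)‖ ≤ B1 * ‖ω - ω0‖ := by
  have hR : (1 : ℝ) < Real.exp ℓ := Real.one_lt_exp_iff.2 hℓ
  have hsub : closedBall (0 : ℂ) 1 ⊆ ball 0 (Real.exp ℓ) := closedBall_subset_ball hR
  have h1 := (convex_closedBall (0 : ℂ) 1).norm_image_sub_le_of_norm_deriv_le (𝕜 := ℂ) (f := φ)
    (C := B1) (fun x hx => (hφ x (hsub hx)).differentiableAt (isOpen_ball.mem_nhds (hsub hx))) hB1
    (exp_mem1 h0) (exp_mem1 h)
  refine h1.trans (mul_le_mul_of_nonneg_left (exp_lip h h0) ?_)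
  exact (norm_nonneg _).trans (hB1 0 (by simp))

lemma ker_bound {a : ℝ} (ha : 0 < a) (hkb : ∀ x : ℂ, ‖kap a x‖ ≤ a * Real.exp (a * ‖x‖))
    {φ : ℂ → ℂ} {ω ω0 ξ : ℂ} {f e B1 : ℝ} (hξ : ‖ξ‖ ≤ f)
    (he : f * ‖φ (exp ω) - φ (exp ω0)‖ ≤ e) (hd : ‖deriv φ (exp ω)‖ ≤ B1) (hω : ω.re ≤ 0) :
    ‖Pool.Agent.Y245.SC.ker a φ ω ω0 ξ‖ ≤ ‖ξ‖ ^ 2 * (a * Real.exp (a * e)) * B1 := by
  unfold Pool.Agent.Y245.SC.ker
  rw [norm_mul, norm_mul, norm_pow, norm_mul]
  have h1 : ‖exp ω‖ ≤ 1 := mem_closedBall_zero_iff.1 (exp_mem1 hω)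
  have h2 : ‖kap a (ξ * (φ (exp ω) - φ (exp ω0)))‖ ≤ a * Real.exp (a * e) := by
    refine (hkb _).trans ?_
    have : ‖ξ * (φ (exp ω) - φ (exp ω0))‖ ≤ e := by
      rw [norm_mul]
      exact (mul_le_mul_of_nonneg_right hξ (norm_nonneg _)).trans he
    gcongr
  have h3 : ‖deriv φ (exp ω)‖ * ‖exp ω‖ ≤ B1 := by
    have := norm_nonneg (deriv φ (exp ω))
    have := norm_nonneg (exp ω)
    nlinarith
  gcongr

lemma ker_diff {a : ℝ} (hkd : Differentiable ℂ (kap a)) {φ : ℂ → ℂ} {ℓ : ℝ}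
    (hφ : DifferentiableOn ℂ φ (ball 0 (Real.exp ℓ))) (ω0 : ℂ) :
    DifferentiableOn ℂ (fun ω => ker a φ ω ω0 (Fc φ ω)) (Strip ℓ) := by
  intro ω hω
  apply DifferentiableAt.differentiableWithinAt
  have hF : DifferentiableAt ℂ (Fc φ) ω := fc_diff hφ hω.1
  have hm : exp ω ∈ ball (0 : ℂ) (Real.exp ℓ) := exp_mem hω.2
  have h1 : DifferentiableAt ℂ φ (exp ω) := (hφ _ hm).differentiableAt (isOpen_ball.mem_nhds hm)
  have h2 : DifferentiableAt ℂ (deriv φ) (exp ω) :=
    ((hφ.deriv isOpen_ball) _ hm).differentiableAt (isOpen_ball.mem_nhds hm)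
  have h1' : DifferentiableAt ℂ (fun ω => φ (exp ω)) ω :=
    DifferentiableAt.comp ω h1 Complex.differentiableAt_exp
  have h2' : DifferentiableAt ℂ (fun ω => deriv φ (exp ω)) ω :=
    DifferentiableAt.comp ω h2 Complex.differentiableAt_exp
  have h3 : DifferentiableAt ℂ (fun ω => Fc φ ω * (φ (exp ω) - φ (exp ω0))) ω :=
    hF.mul (h1'.sub_const _)
  have h4 : DifferentiableAt ℂ (fun ω => kap a (Fc φ ω * (φ (exp ω) - φ (exp ω0)))) ω :=
    DifferentiableAt.comp ω (hkd _) h3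
  unfold Pool.Agent.Y245.SC.ker
  exact ((hF.pow 2).mul h4).mul (h2'.mul Complex.differentiableAt_exp)

lemma strip_open (ℓ : ℝ) : IsOpen (Strip ℓ) :=
  (isOpen_lt continuous_const continuous_re).inter (isOpen_lt continuous_re continuous_const)

lemma strip_convex (ℓ : ℝ) : Convex ℝ (Strip ℓ) :=
  (convex_halfSpace_re_gt (-ℓ)).inter (convex_halfSpace_re_lt ℓ)

/-- the integral of the weight -/
lemma weight {α h s : ℝ} (hα : α < 1) (hs : 0 < s) (hsh : s < h) :
    IntervalIntegrable (fun t : ℝ => (h - s * t) ^ (-α) * s) volume 0 1 ∧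
    ∫ t in (0 : ℝ)..1, (h - s * t) ^ (-α) * s ≤ h ^ (1 - α) / (1 - α) := by
  constructor
  · apply ContinuousOn.intervalIntegrable
    refine ContinuousOn.mul (ContinuousOn.rpow_const (by fun_prop) ?_) continuousOn_const
    intro t ht
    rw [uIcc_of_le zero_le_one] at ht
    left
    have : s * t ≤ s := by nlinarith [ht.1, ht.2]
    linarith
  · rw [intervalIntegral.integral_mul_const,
      intervalIntegral.integral_comp_sub_mul (fun u : ℝ => u ^ (-α)) hs.ne' h,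
      integral_rpow (Or.inl (by linarith))]
    rw [smul_eq_mul, mul_one, mul_zero, sub_zero, show -α + 1 = 1 - α by ring]
    have e1 : s⁻¹ * ((h ^ (1 - α) - (h - s) ^ (1 - α)) / (1 - α)) * s =
        (h ^ (1 - α) - (h - s) ^ (1 - α)) / (1 - α) := by
      field_simp
    rw [e1]
    have h1 : 0 ≤ (h - s) ^ (1 - α) := Real.rpow_nonneg (by linarith) _
    have h2 : 0 < 1 - α := by linarith
    gcongr
    linarith

theorem boot2 : S_BOOT2 := by
  intro hK hS φ G a ℓ α C y1 δ ha hℓ hδ hα hφ hG hV hF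
  obtain ⟨hkd, hkb, -⟩ := hK a ha.le
  have hR : (1 : ℝ) < Real.exp ℓ := Real.one_lt_exp_iff.2 hℓ
  have hsub : closedBall (0 : ℂ) 1 ⊆ ball 0 (Real.exp ℓ) := closedBall_subset_ball hR
  have hφ' : DifferentiableOn ℂ (deriv φ) (ball 0 (Real.exp ℓ)) := hφ.deriv isOpen_ball
  obtain ⟨B0, hB0⟩ : ∃ B0, ∀ w ∈ closedBall (0 : ℂ) 1, ‖φ w‖ ≤ B0 :=
    (isCompact_closedBall (0 : ℂ) 1).exists_bound_of_continuousOn (hφ.continuousOn.mono hsub)
  obtain ⟨B1, hB1⟩ : ∃ B1, ∀ w ∈ closedBall (0 : ℂ) 1, ‖deriv φ w‖ ≤ B1 :=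
    (isCompact_closedBall (0 : ℂ) 1).exists_bound_of_continuousOn (hφ'.continuousOn.mono hsub)
  have hB00 : 0 ≤ B0 := (norm_nonneg _).trans (hB0 0 (by simp))
  have hB10 : 0 ≤ B1 := (norm_nonneg _).trans (hB1 0 (by simp))
  have hC : 0 ≤ C := by
    have h1 := hF (y1 * I) (by simp [hℓ]) (by simp) (by simp [hδ])
    have h2 : (y1 * I : ℂ).re = 0 := by simp
    rw [h2, add_zero] at h1
    have h3 : 0 < ℓ ^ (-α) := Real.rpow_pos_of_pos hℓ _
    have h4 := (norm_nonneg _).trans h1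
    exact nonneg_of_mul_nonneg_left h4 h3
  set κ0 : ℝ := a * Real.exp (a * (C * B1 * ℓ ^ (1 - α))) with hκ0
  have hκ00 : 0 ≤ κ0 := by positivity
  set D : ℝ := C * κ0 * B1 with hD
  have hD0 : 0 ≤ D := by positivity
  have hα1 : 0 < 1 - α := by linarith
  obtain ⟨h, hh2, hh0, hh1⟩ : ∃ h : ℝ, D * (h ^ (1 - α) / (1 - α)) < 1 / 2 ∧ 0 < h ∧ h < ℓ := by
    have hc : ContinuousAt (fun h : ℝ => D * (h ^ (1 - α) / (1 - α))) 0 :=
      ((Real.continuousAt_rpow_const 0 (1 - α) (Or.inr hα1.le)).div_const _).const_mul D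
    have h0 : (fun h : ℝ => D * (h ^ (1 - α) / (1 - α))) 0 = 0 := by
      simp only [Real.zero_rpow hα1.ne', zero_div, mul_zero]
    have hev : ∀ᶠ h : ℝ in 𝓝[>] 0, D * (h ^ (1 - α) / (1 - α)) < 1 / 2 := by
      refine (hc.eventually (gt_mem_nhds ?_)).filter_mono nhdsWithin_le_nhds
      rw [h0]
      norm_num
    obtain ⟨h, h1, h2⟩ := (hev.and (Ioo_mem_nhdsGT hℓ)).exists
    exact ⟨h, h1, h2.1, h2.2⟩
  set xs : ℝ := -ℓ + h with hxs
  have hxs0 : xs < 0 := by linarith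
  set Y : ℝ := |y1| + δ with hY
  have hY0 : 0 ≤ Y := by positivity
  have hKc : IsCompact (Icc xs 0 ×ℂ Icc (-Y) Y) := isCompact_Icc.reProdIm isCompact_Icc
  obtain ⟨MF, hMF⟩ : ∃ MF, ∀ ω ∈ (Icc xs 0 ×ℂ Icc (-Y) Y), ‖Fc φ ω‖ ≤ MF := by
    refine hKc.exists_bound_of_continuousOn fun ω hω => ?_
    have h1 : xs ≤ ω.re := hω.1.1
    exact (fc_diff hφ (by linarith)).continuousAt.continuousWithinAt
  have hMF0 : 0 ≤ MF := (norm_nonneg _).trans (hMF 0 ⟨⟨by simpa using hxs0.le, by simp⟩,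
    ⟨by simpa using hY0, by simpa using hY0⟩⟩)
  obtain ⟨MG, hMG⟩ : ∃ MG, ∀ w ∈ closedBall (0 : ℂ) (Real.exp xs), ‖G w‖ ≤ MG :=
    (isCompact_closedBall _ _).exists_bound_of_continuousOn
      (hG.continuousOn.mono (closedBall_subset_ball (by rwa [Real.exp_lt_one_iff])))
  set K1 : ℝ := MF ^ 2 * (a * Real.exp (a * (MF * (2 * B0)))) * B1 with hK1
  have hK10 : 0 ≤ K1 := by positivity
  set A' : ℝ := MG + K1 * (ℓ + Y) with hA'
  have key : ∀ x0 y0 m : ℝ, -ℓ < x0 → x0 < xs → |y0 - y1| < δ →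
      (∀ x ∈ Icc x0 xs, ‖Fc φ (x + y0 * I)‖ ≤ m) → ‖Fc φ (x0 + y0 * I)‖ ≤ A' + m / 2 := by
    intro x0 y0 m hx0 hx1 hy0 hm
    have hy0Y : |y0| ≤ Y := by
      have := abs_add_le (y0 - y1) y1
      rw [sub_add_cancel] at this
      linarith
    have hm0 : 0 ≤ m := (norm_nonneg _).trans (hm xs ⟨hx1.le, le_rfl⟩)
    set ω0 : ℂ := x0 + y0 * I with hω0
    set p : ℂ := xs + y0 * I with hp
    have hω0re : ω0.re = x0 := by simp [hω0]
    have hω0im : ω0.im = y0 := by simp [hω0]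
    have hpre : p.re = xs := by simp [hp]
    have hpim : p.im = y0 := by simp [hp]
    set g : ℂ → ℂ := fun ω => ker a φ ω ω0 (Fc φ ω) with hg
    have hgd : DifferentiableOn ℂ g (Strip ℓ) := ker_diff hkd hφ ω0
    have h1 := hV ω0 (by rw [hω0re]; exact hx0) (by rw [hω0re]; linarith)
    have h2 := (hS (Strip ℓ) g (strip_open ℓ) (strip_convex ℓ) hgd).1 0
      ⟨by simpa using hℓ, by simpa using hℓ⟩ p
      ⟨by rw [hpre]; linarith, by rw [hpre]; linarith⟩ ω0
      ⟨by rw [hω0re]; exact hx0, by rw [hω0re]; linarith⟩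
    rw [h1, ← h2]
    have b1 : ‖G (exp ω0)‖ ≤ MG := by
      apply hMG
      rw [mem_closedBall_zero_iff, Complex.norm_exp, hω0re]
      exact Real.exp_le_exp.2 hx1.le
    have b2 : ‖seg g 0 p‖ ≤ K1 * (ℓ + Y) := by
      unfold seg
      have h3 : ‖p - 0‖ ≤ ℓ + Y := by
        rw [sub_zero]
        refine (Complex.norm_le_abs_re_add_abs_im p).trans ?_
        rw [hpre, hpim, abs_of_neg hxs0]
        linarith
      have h4 : ∀ t ∈ uIoc (0 : ℝ) 1, ‖g (0 + t * (p - 0)) * (p - 0)‖ ≤ K1 * (ℓ + Y) := by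
        intro t ht
        rw [uIoc_of_le zero_le_one] at ht
        rw [norm_mul, zero_add, sub_zero]
        rw [sub_zero] at h3
        have hre : ((t : ℂ) * p).re = t * xs := by simp [hp]
        have him : ((t : ℂ) * p).im = t * y0 := by simp [hp]
        have hre1 : xs ≤ t * xs := by nlinarith [ht.1, ht.2]
        have hre2 : t * xs ≤ 0 := by nlinarith [ht.1, ht.2]
        have him1 : |t * y0| ≤ Y := by
          rw [abs_mul, abs_of_pos ht.1]
          nlinarith [ht.1, ht.2, abs_nonneg y0]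
        have hFt : ‖Fc φ (t * p)‖ ≤ MF := by
          apply hMF
          refine ⟨⟨?_, ?_⟩, ?_⟩
          · show xs ≤ ((t : ℂ) * p).re
            rw [hre]; exact hre1
          · show ((t : ℂ) * p).re ≤ 0
            rw [hre]; exact hre2
          · show ((t : ℂ) * p).im ∈ Icc (-Y) Y
            rw [him]; exact abs_le.1 him1
        have hle0 : ((t : ℂ) * p).re ≤ 0 := by rw [hre]; exact hre2
        have hd : ‖φ (exp (t * p)) - φ (exp ω0)‖ ≤ 2 * B0 := by
          refine (norm_sub_le _ _).trans ?_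
          have e1 := hB0 _ (exp_mem1 hle0)
          have e2 := hB0 _ (exp_mem1 (show ω0.re ≤ 0 by rw [hω0re]; linarith))
          linarith
        have h5 := ker_bound ha hkb (φ := φ) (ω := t * p) (ω0 := ω0) hFt
          (mul_le_mul_of_nonneg_left hd hMF0) (hB1 _ (exp_mem1 hle0)) hle0
        have h6 : ‖g (t * p)‖ ≤ K1 := by
          refine h5.trans ?_
          rw [hK1]
          gcongr
        exact mul_le_mul h6 h3 (norm_nonneg _) hK10
      have h5 := intervalIntegral.norm_integral_le_of_norm_le_const h4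
      simpa using h5
    have b3 : ‖seg g p ω0‖ ≤ m / 2 := by
      unfold seg
      set s : ℝ := xs - x0 with hs
      have hs0 : 0 < s := by linarith
      have hsh : s < h := by linarith
      obtain ⟨w1, w2⟩ := weight hα hs0 hsh
      have hnorm : ‖ω0 - p‖ = s := by
        have : ω0 - p = ((-s : ℝ) : ℂ) := by
          rw [hω0, hp, hs]
          push_cast
          ring
        rw [this, Complex.norm_real, Real.norm_eq_abs, abs_neg, abs_of_pos hs0]
      have h4 : ∀ t ∈ Ioc (0 : ℝ) 1, ‖g (p + t * (ω0 - p)) * (ω0 - p)‖ ≤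
          (m * D) * ((h - s * t) ^ (-α) * s) := by
        intro t ht
        rw [norm_mul, hnorm]
        set x : ℝ := xs - s * t with hx
        have hst : s * t ≤ s := by nlinarith [ht.1, ht.2]
        have hst0 : 0 < s * t := mul_pos hs0 ht.1
        have hpt : p + t * (ω0 - p) = x + y0 * I := by
          rw [hω0, hp, hx, hs]
          push_cast
          ring
        rw [hpt]
        have hxre : ((x : ℂ) + y0 * I).re = x := by simp
        have hxim : ((x : ℂ) + y0 * I).im = y0 := by simp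
        have hx0' : x0 ≤ x := by linarith
        have hx1' : x ≤ xs := by linarith
        have hlx : ℓ + x = h - s * t := by rw [hx, hxs]; ring
        have hlx0 : 0 < ℓ + x := by linarith
        have f1 : ‖Fc φ (x + y0 * I)‖ ≤ m := hm x ⟨hx0', hx1'⟩
        have f2 : ‖Fc φ (x + y0 * I)‖ ≤ C * (ℓ + x) ^ (-α) := by
          have := hF (x + y0 * I) (by rw [hxre]; linarith) (by rw [hxre]; linarith)
            (by rw [hxim]; exact hy0)
          rwa [hxre] at this
        have hle0 : ((x : ℂ) + y0 * I).re ≤ 0 := by rw [hxre]; linarith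
        have hd : ‖φ (exp (x + y0 * I)) - φ (exp ω0)‖ ≤ B1 * (ℓ + x) := by
          refine (phi_lip hℓ hφ hB1 hle0 (by rw [hω0re]; linarith)).trans ?_
          refine mul_le_mul_of_nonneg_left ?_ hB10
          have e1 : ((x : ℂ) + y0 * I) - ω0 = ((x - x0 : ℝ) : ℂ) := by
            rw [hω0]
            push_cast
            ring
          rw [e1, Complex.norm_real, Real.norm_eq_abs, abs_of_nonneg (by linarith)]
          linarith
        have hr0 : 0 ≤ (ℓ + x) ^ (-α) := Real.rpow_nonneg hlx0.le _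
        have he : C * (ℓ + x) ^ (-α) * ‖φ (exp (x + y0 * I)) - φ (exp ω0)‖ ≤
            C * B1 * ℓ ^ (1 - α) := by
          have e1 : C * (ℓ + x) ^ (-α) * ‖φ (exp (x + y0 * I)) - φ (exp ω0)‖ ≤
              C * (ℓ + x) ^ (-α) * (B1 * (ℓ + x)) :=
            mul_le_mul_of_nonneg_left hd (by positivity)
          have e2 : C * (ℓ + x) ^ (-α) * (B1 * (ℓ + x)) = C * B1 * (ℓ + x) ^ (1 - α) := by
            rw [show 1 - α = -α + 1 by ring, Real.rpow_add_one hlx0.ne']
            ring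
          have e3 : (ℓ + x) ^ (1 - α) ≤ ℓ ^ (1 - α) :=
            Real.rpow_le_rpow hlx0.le (by linarith) hα1.le
          rw [e2] at e1
          refine e1.trans ?_
          gcongr
        have h5 := ker_bound ha hkb (φ := φ) (ω := x + y0 * I) (ω0 := ω0) f2 he
          (hB1 _ (exp_mem1 hle0)) hle0
        have h6 : ‖Fc φ (x + y0 * I)‖ ^ 2 ≤ m * (C * (ℓ + x) ^ (-α)) := by
          rw [sq]
          exact mul_le_mul f1 f2 (norm_nonneg _) hm0
        have h7 : ‖g (x + y0 * I)‖ ≤ m * D * (h - s * t) ^ (-α) := by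
          refine h5.trans ?_
          rw [← hκ0, hD, ← hlx]
          calc ‖Fc φ (x + y0 * I)‖ ^ 2 * κ0 * B1 ≤ m * (C * (ℓ + x) ^ (-α)) * κ0 * B1 := by gcongr
            _ = m * (C * κ0 * B1) * (ℓ + x) ^ (-α) := by ring
        calc ‖g (x + y0 * I)‖ * s ≤ (m * D * (h - s * t) ^ (-α)) * s :=
              mul_le_mul_of_nonneg_right h7 hs0.le
          _ = (m * D) * ((h - s * t) ^ (-α) * s) := by ring
      have h5 := intervalIntegral.norm_integral_le_of_norm_le (μ := volume) zero_le_one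
        (Eventually.of_forall h4) (w1.const_mul (m * D))
      refine h5.trans ?_
      rw [intervalIntegral.integral_const_mul]
      have h6 : m * D * ∫ t in (0 : ℝ)..1, (h - s * t) ^ (-α) * s ≤
          m * D * (h ^ (1 - α) / (1 - α)) := mul_le_mul_of_nonneg_left w2 (by positivity)
      refine h6.trans ?_
      rw [mul_assoc]
      nlinarith
    have b4 : ‖G (exp ω0) + (seg g 0 p + seg g p ω0)‖ ≤
        ‖G (exp ω0)‖ + (‖seg g 0 p‖ + ‖seg g p ω0‖) :=
      (norm_add_le _ _).trans (add_le_add le_rfl (norm_add_le _ _))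
    rw [hA']
    linarith
  refine ⟨max MF (2 * A'), fun ω hω1 hω2 hω3 => ?_⟩
  have hωY : |ω.im| ≤ Y := by
    have := abs_add_le (ω.im - y1) y1
    rw [sub_add_cancel] at this
    linarith
  rcases le_or_gt xs ω.re with hx | hx
  · exact (hMF ω ⟨⟨hx, hω2⟩, abs_le.1 hωY⟩).trans (le_max_left _ _)
  · have hcont : ContinuousOn (fun x : ℝ => ‖Fc φ (x + ω.im * I)‖) (Icc ω.re xs) := by
      intro x hx'
      have h1 : ContinuousAt (Fc φ) (x + ω.im * I) :=
        (fc_diff hφ (by simp; linarith [hx'.1])).continuousAt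
      have h2 : ContinuousAt (fun x : ℝ => (x : ℂ) + ω.im * I) x := by fun_prop
      exact (ContinuousAt.comp (f := fun x : ℝ => (x : ℂ) + ω.im * I) h1 h2).norm.continuousWithinAt
    obtain ⟨x1, hx1, hmax⟩ := isCompact_Icc.exists_isMaxOn (nonempty_Icc.2 hx.le) hcont
    have hω : (ω.re : ℂ) + ω.im * I = ω := Complex.re_add_im ω
    have h1 : ‖Fc φ ω‖ ≤ ‖Fc φ (x1 + ω.im * I)‖ := by
      have := hmax (show ω.re ∈ Icc ω.re xs from ⟨le_rfl, hx.le⟩)
      simp only [mem_ofPred_eq] at this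
      rwa [hω] at this
    refine h1.trans ?_
    rcases eq_or_lt_of_le hx1.2 with he | hlt
    · refine (hMF _ ⟨⟨?_, ?_⟩, ?_⟩).trans (le_max_left _ _)
      · show xs ≤ ((x1 : ℂ) + ω.im * I).re
        simp [he]
      · show ((x1 : ℂ) + ω.im * I).re ≤ 0
        simp [he, hxs0.le]
      · show ((x1 : ℂ) + ω.im * I).im ∈ Icc (-Y) Y
        have : ((x1 : ℂ) + ω.im * I).im = ω.im := by simp
        rw [this]
        exact abs_le.1 hωY
    · have h2 := key x1 ω.im _ (lt_of_lt_of_le hω1 hx1.1) hlt hω3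
        (fun x hx' => hmax (show x ∈ Icc ω.re xs from ⟨hx1.1.trans hx'.1, hx'.2⟩))
      refine le_trans ?_ (le_max_right _ _)
      linarith

end Pool.Agent.Y779.SC
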