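import Pool.Agent.Y711.CDef
import Pool.Agent.Y784.SV.S2

/-!
Squarefree monic polynomials divisible by `m` with prescribed quadratic symbols at the primes
dividing `n`: the lower bound `StC2`.
-/

set_option autoImplicit false
set_option maxHeartbeats 1000000

open Polynomial Classical

namespace Pool.Agent.Y779.SC

open Pool.Agent.W313.Hyp Pool.Agent.Y711 Pool.Agent.Y784.SV

section

variable {k : Type} [Field k]

theorem mod_mod' {a b : k[X]} (r : k[X]) (h : a ∣ b) : (r % b) % a = r % a := by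
  apply mod_eq_of_dvd_sub
  obtain ⟨c, rfl⟩ := h
  have := EuclideanDomain.mod_add_div r (a * c)
  exact ⟨-(c * (r / (a * c))), by linear_combination this⟩

theorem dvd_mod' {a b : k[X]} (r : k[X]) (h : a ∣ b) : a ∣ r % b ↔ a ∣ r := by
  obtain ⟨c, rfl⟩ := h
  have := EuclideanDomain.mod_add_div r (a * c)
  constructor
  · intro h1
    rw [← this]
    exact dvd_add h1 (Dvd.intro _ (by ring : a * (c * (r / (a * c))) = a * c * (r / (a * c))))
  · intro h1
    have h2 : r % (a * c) = r - a * c * (r / (a * c)) := by linear_combination this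
    rw [h2]
    exact dvd_sub h1 (Dvd.intro _ (by ring : a * (c * (r / (a * c))) = a * c * (r / (a * c))))

theorem chi_mod {P N : k[X]} (r : k[X]) (h : P ∣ N) : chi (r % N) P = chi r P := by
  have h1 : ∀ s : k[X], P ∣ r % N - s ^ 2 ↔ P ∣ r - s ^ 2 := by
    intro s
    obtain ⟨c, rfl⟩ := h
    have := EuclideanDomain.mod_add_div r (P * c)
    have h2 : r % (P * c) - s ^ 2 = (r - s ^ 2) - P * (c * (r / (P * c))) := by
      linear_combination this
    rw [h2]
    exact dvd_sub_left (dvd_mul_right _ _)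
  unfold chi
  simp only [dvd_mod' r h, h1]

theorem dvd_of_primes {m z : k[X]} (hm : m.Monic) (hs : Squarefree m)
    (h : ∀ P : MI k, P.1 ∣ m → P.1 ∣ z) : m ∣ z := by
  obtain ⟨a, ha⟩ := EuclideanDomain.gcd_dvd_left m z
  have ha0 : a ≠ 0 := by
    rintro rfl
    rw [mul_zero] at ha
    exact hm.ne_zero ha
  have hu : IsUnit a := by
    by_contra hu
    have h1 : (normalize a).Monic := monic_normalize ha0
    have h2 : Associated (normalize a) a := normalize_associated a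
    have h3 : 0 < (normalize a).natDegree := by
      rw [Nat.pos_iff_ne_zero]
      intro h0
      apply hu
      rw [← h2.isUnit_iff, h1.natDegree_eq_zero.1 h0]
      exact isUnit_one
    obtain ⟨P, hP⟩ := exists_MI h1 h3
    have hPa : P.1 ∣ a := hP.trans h2.dvd
    have hPm : P.1 ∣ m := by
      rw [ha]
      exact hPa.mul_left _
    have hPg : P.1 ∣ EuclideanDomain.gcd m z := EuclideanDomain.dvd_gcd hPm (h P hPm)
    have h4 : P.1 * P.1 ∣ m := by
      rw [ha]
      exact mul_dvd_mul hPg hPa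
    exact P.2.2.not_isUnit (hs P.1 h4)
  have h1 : m ∣ EuclideanDomain.gcd m z := by
    obtain ⟨u, rfl⟩ := hu
    refine ⟨(u⁻¹ : (k[X])ˣ), ?_⟩
    calc EuclideanDomain.gcd m z = (EuclideanDomain.gcd m z * u) * (u⁻¹ : (k[X])ˣ) := by
          rw [mul_assoc, Units.mul_inv, mul_one]
      _ = m * (u⁻¹ : (k[X])ˣ) := by rw [← ha]
  exact h1.trans (EuclideanDomain.gcd_dvd_right m z)

variable [Finite k]

/-- local counts multiply -/
theorem crt (R : MI k → k[X] → Prop) (S : Finset (MI k)) :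
    (∏ P ∈ S, P.1 ^ 2 : k[X]) ≠ 0 ∧
    ((LT k (∏ P ∈ S, P.1 ^ 2 : k[X]).natDegree).filter
        fun r => ∀ P ∈ S, R P (r % P.1 ^ 2)).card =
      ∏ P ∈ S, ((LT k (P.1 ^ 2).natDegree).filter (R P)).card := by
  induction S using Finset.induction_on with
  | empty =>
    refine ⟨by simp, ?_⟩
    simp only [Finset.prod_empty, natDegree_one, Finset.notMem_empty, false_imp_iff, implies_true,
      Finset.filter_true]
    rw [card_LT, pow_zero]
  | insert P S hP ih =>
    obtain ⟨h0, ih⟩ := ih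
    have hP0 : P.1 ^ 2 ≠ 0 := pow_ne_zero 2 P.2.2.ne_zero
    rw [Finset.prod_insert hP, Finset.prod_insert hP]
    refine ⟨mul_ne_zero hP0 h0, ?_⟩
    have hcop : IsCoprime (P.1 ^ 2) (∏ Q ∈ S, Q.1 ^ 2) := by
      apply IsCoprime.prod_right
      intro Q hQ
      apply IsCoprime.pow
      rw [P.2.2.coprime_iff_not_dvd]
      intro h
      exact hP (eq_of_dvd_MI h ▸ hQ)
    have h1 := sum_crt hP0 h0 hcop (fun r => if R P r then 1 else 0)
      (fun r => if ∀ Q ∈ S, R Q (r % Q.1 ^ 2) then 1 else 0)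
    rw [← Finset.card_filter, ← Finset.card_filter, ih] at h1
    rw [← h1, Finset.card_filter]
    refine Finset.sum_congr rfl fun r _ => ?_
    have h2 : (∀ Q ∈ insert P S, R Q (r % Q.1 ^ 2)) ↔ R P (r % P.1 ^ 2) ∧
        ∀ Q ∈ S, R Q ((r % ∏ Q ∈ S, Q.1 ^ 2) % Q.1 ^ 2) := by
      rw [Finset.forall_mem_insert]
      refine and_congr Iff.rfl (forall₂_congr fun Q hQ => ?_)
      rw [mod_mod' r (Finset.dvd_prod_of_mem (fun Q : MI k => Q.1 ^ 2) hQ)]
    simp only [h2]
    by_cases a : R P (r % P.1 ^ 2) <;>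
      by_cases b : ∀ Q ∈ S, R Q ((r % ∏ Q ∈ S, Q.1 ^ 2) % Q.1 ^ 2) <;> simp [a, b]

theorem nm_eq (P : MI k) : (Nat.card k : ℝ) ^ (P.1 ^ 2).natDegree = nm P ^ 2 := by
  rw [natDegree_pow, mul_comm, pow_mul]
  rfl

/-- counting monic polynomials with local conditions -/
theorem count (R : MI k → k[X] → Prop) (S : Finset (MI k)) {N : ℕ}
    (hN : (∏ P ∈ S, P.1 ^ 2 : k[X]).natDegree ≤ N) (c : MI k → ℝ)
    (hc : ∀ P ∈ S, (((LT k (P.1 ^ 2).natDegree).filter (R P)).card : ℝ) = nm P ^ 2 * c P) :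
    (((MD k N).filter fun z => ∀ P ∈ S, R P (z % P.1 ^ 2)).card : ℝ) =
      (Nat.card k : ℝ) ^ N * ∏ P ∈ S, c P := by
  have hq0 : (0 : ℝ) < Nat.card k := by
    have : 0 < Nat.card k := Nat.card_pos
    exact_mod_cast this
  obtain ⟨h0, h1⟩ := crt R S
  have h2 := card_monic _ h0 hN (fun r => ∀ P ∈ S, R P (r % P.1 ^ 2))
  rw [h1] at h2
  have h3 : ((MD k N).filter fun z => ∀ P ∈ S, R P (z % P.1 ^ 2)) =
      (MD k N).filter fun z => ∀ P ∈ S, R P ((z % ∏ P ∈ S, P.1 ^ 2) % P.1 ^ 2) := by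
    refine Finset.filter_congr fun z _ => forall₂_congr fun P hP => ?_
    rw [mod_mod' z (Finset.dvd_prod_of_mem (fun Q : MI k => Q.1 ^ 2) hP)]
  rw [h3, h2]
  push_cast
  rw [Finset.prod_congr rfl hc, Finset.prod_mul_distrib, pow_sub₀ _ hq0.ne' hN]
  have h4 : (Nat.card k : ℝ) ^ (∏ P ∈ S, P.1 ^ 2 : k[X]).natDegree = ∏ P ∈ S, nm P ^ 2 := by
    rw [natDegree_prod _ _ fun P _ => pow_ne_zero 2 P.2.2.ne_zero, ← Finset.prod_pow_eq_pow_sum]
    exact Finset.prod_congr rfl fun P _ => nm_eq P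
  rw [h4]
  have h5 : ∏ P ∈ S, nm P ^ 2 ≠ 0 := Finset.prod_ne_zero_iff.2 fun P _ => (pow_pos (nm_pos P) 2).ne'
  field_simp

/-- residues modulo `P²` different from zero -/
theorem cntA (P : MI k) : (((LT k (P.1 ^ 2).natDegree).filter fun r => ¬ P.1 ^ 2 ∣ r).card : ℝ) =
    nm P ^ 2 * (1 - ((nm P)⁻¹) ^ 2) := by
  have h1 : ((LT k (P.1 ^ 2).natDegree).filter fun r => P.1 ^ 2 ∣ r) = {0} := by
    ext r
    rw [Finset.mem_filter, mem_LT, Finset.mem_singleton]
    constructor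
    · rintro ⟨h2, h3⟩
      exact eq_zero_of_dvd_of_degree_lt h3
        (by rwa [degree_eq_natDegree (pow_ne_zero 2 P.2.2.ne_zero)])
    · rintro rfl
      refine ⟨?_, dvd_zero _⟩
      rw [degree_zero]
      exact WithBot.bot_lt_coe _
  have h2 := Finset.card_filter_add_card_filter_not (s := LT k (P.1 ^ 2).natDegree)
    (fun r => P.1 ^ 2 ∣ r)
  rw [h1, Finset.card_singleton, card_LT] at h2
  have h3 : (1 : ℝ) + (((LT k (P.1 ^ 2).natDegree).filter fun r => ¬ P.1 ^ 2 ∣ r).card : ℝ) =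
      nm P ^ 2 := by
    rw [← nm_eq]
    exact_mod_cast h2
  have h4 := nm_pos P
  have h5 : nm P ^ 2 * (1 - ((nm P)⁻¹) ^ 2) = nm P ^ 2 - 1 := by
    field_simp
  rw [h5]
  linarith

/-- residues modulo `P²` divisible by `P` but not by `P²` -/
theorem cntB (P : MI k) :
    (((LT k (P.1 ^ 2).natDegree).filter fun r => P.1 ∣ r ∧ ¬ P.1 ^ 2 ∣ r).card : ℝ) = nm P - 1 := by
  have hP := P.2.2.ne_zero
  have h1 : ((LT k (P.1 ^ 2).natDegree).filter fun r => P.1 ∣ r ∧ ¬ P.1 ^ 2 ∣ r) =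
      ((LT k P.1.natDegree).erase 0).image fun s => P.1 * s := by
    ext r
    rw [Finset.mem_filter, mem_LT, Finset.mem_image]
    constructor
    · rintro ⟨h2, ⟨s, rfl⟩, h4⟩
      have hs : s ≠ 0 := by
        rintro rfl
        exact h4 (by simp)
      refine ⟨s, ?_, rfl⟩
      rw [Finset.mem_erase, mem_LT]
      refine ⟨hs, ?_⟩
      rw [degree_eq_natDegree (mul_ne_zero hP hs), natDegree_mul hP hs, natDegree_pow] at h2
      rw [degree_eq_natDegree hs]
      norm_cast at h2 ⊢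
      omega
    · rintro ⟨s, hs, rfl⟩
      rw [Finset.mem_erase, mem_LT] at hs
      obtain ⟨hs0, hs⟩ := hs
      refine ⟨?_, dvd_mul_right _ _, ?_⟩
      · rw [degree_eq_natDegree (mul_ne_zero hP hs0), natDegree_mul hP hs0, natDegree_pow]
        rw [degree_eq_natDegree hs0] at hs
        norm_cast at hs ⊢
        omega
      · intro h
        rw [sq] at h
        have h5 : P.1 ∣ s := (mul_dvd_mul_iff_left hP).1 h
        exact hs0 (eq_zero_of_dvd_of_degree_lt h5 (by rwa [degree_eq_natDegree hP]))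
  rw [h1, Finset.card_image_of_injective _ (mul_right_injective₀ hP),
    Finset.card_erase_of_mem (zero_mem_LT _), card_LT]
  have : 1 ≤ Nat.card k ^ P.1.natDegree := Nat.one_le_pow _ _ Nat.card_pos
  rw [Nat.cast_sub this]
  push_cast
  rfl

/-- the symbols sum to zero -/
theorem sum_chi (h2 : (2 : k) ≠ 0) (P : MI k) : ∑ r ∈ LT k P.1.natDegree, chi r P.1 = 0 := by
  have : Fact (Irreducible P.1) := ⟨P.2.2⟩
  have hP := P.2.2.ne_zero
  have hsurj : Function.Surjective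
      (fun r : {r // r ∈ LT k P.1.natDegree} => AdjoinRoot.mk P.1 r.1) := by
    intro a
    obtain ⟨s, rfl⟩ := AdjoinRoot.mk_surjective a
    refine ⟨⟨s % P.1, mod_mem_LT s hP⟩, ?_⟩
    show AdjoinRoot.mk P.1 (s % P.1) = AdjoinRoot.mk P.1 s
    rw [AdjoinRoot.mk_eq_mk]
    have := EuclideanDomain.mod_add_div s P.1
    exact ⟨-(s / P.1), by linear_combination this⟩
  have hinj : Function.Injective
      (fun r : {r // r ∈ LT k P.1.natDegree} => AdjoinRoot.mk P.1 r.1) := by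
    rintro ⟨r, hr⟩ ⟨r', hr'⟩ h
    rw [mem_LT] at hr hr'
    have h1 : P.1 ∣ r - r' := AdjoinRoot.mk_eq_mk.1 h
    exact Subtype.ext (eq_of_dvd_sub le_rfl hr hr' h1)
  have : Finite (AdjoinRoot P.1) := Finite.of_surjective _ hsurj
  letI : Fintype (AdjoinRoot P.1) := Fintype.ofFinite _
  have hchar : ringChar (AdjoinRoot P.1) ≠ 2 := by
    intro h
    have h3 := ringChar.Nat.cast_ringChar (R := AdjoinRoot P.1)
    rw [h] at h3
    have h4 : algebraMap k (AdjoinRoot P.1) 2 = 0 := by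
      rw [map_ofNat]
      exact_mod_cast h3
    exact h2 ((map_eq_zero _).1 h4)
  have h0 := quadraticChar_sum_zero hchar
  have h3 : ∀ r : k[X], quadraticChar (AdjoinRoot P.1) (AdjoinRoot.mk P.1 r) = chi r P.1 := by
    intro r
    rw [quadraticChar_apply, quadraticCharFun]
    unfold chi
    have e1 : AdjoinRoot.mk P.1 r = 0 ↔ P.1 ∣ r := AdjoinRoot.mk_eq_zero
    have e2 : IsSquare (AdjoinRoot.mk P.1 r) ↔ ∃ s : k[X], P.1 ∣ r - s ^ 2 := by
      constructor
      · rintro ⟨b, hb⟩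
        obtain ⟨s, rfl⟩ := AdjoinRoot.mk_surjective b
        refine ⟨s, ?_⟩
        rw [← AdjoinRoot.mk_eq_mk, hb, sq, map_mul]
      · rintro ⟨s, hs⟩
        refine ⟨AdjoinRoot.mk P.1 s, ?_⟩
        rw [← AdjoinRoot.mk_eq_mk] at hs
        rw [hs, sq, map_mul]
    simp only [e1, e2]
  have h4 : ∑ r ∈ LT k P.1.natDegree, chi r P.1 =
      ∑ r : {r // r ∈ LT k P.1.natDegree}, chi r.1 P.1 :=
    (Finset.sum_coe_sort (LT k P.1.natDegree) fun r => chi r P.1).symm
  rw [h4, ← h0]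
  refine Fintype.sum_bijective _ ⟨hinj, hsurj⟩ _ _ fun r => ?_
  exact (h3 r.1).symm

theorem cnt_half (h2 : (2 : k) ≠ 0) (P : MI k) {w : ℤ} (hw : w ∈ ({1, -1} : Finset ℤ)) :
    (((LT k P.1.natDegree).filter fun r => chi r P.1 = w).card : ℝ) = (nm P - 1) / 2 := by
  have h1 : ((LT k P.1.natDegree).filter fun r => chi r P.1 = 0) = {0} := by
    ext r
    rw [Finset.mem_filter, mem_LT, Finset.mem_singleton]
    constructor
    · rintro ⟨h3, h4⟩
      have h5 : P.1 ∣ r := by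
        by_contra h
        unfold chi at h4
        rw [if_neg h] at h4
        split_ifs at h4 <;> norm_num at h4
      exact eq_zero_of_dvd_of_degree_lt h5 (by rwa [degree_eq_natDegree P.2.2.ne_zero])
    · rintro rfl
      refine ⟨?_, ?_⟩
      · rw [degree_zero]
        exact WithBot.bot_lt_coe _
      · unfold chi
        rw [if_pos (dvd_zero _)]
  have hval : ∀ r : k[X], chi r P.1 = 0 ∨ chi r P.1 = 1 ∨ chi r P.1 = -1 := by
    intro r
    unfold chi
    split_ifs <;> simp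
  have h3 : ((LT k P.1.natDegree).card : ℤ) =
      (((LT k P.1.natDegree).filter fun r => chi r P.1 = 0).card : ℤ) +
      (((LT k P.1.natDegree).filter fun r => chi r P.1 = 1).card : ℤ) +
      (((LT k P.1.natDegree).filter fun r => chi r P.1 = -1).card : ℤ) := by
    rw [Finset.card_filter, Finset.card_filter, Finset.card_filter, Finset.card_eq_sum_ones]
    push_cast
    rw [← Finset.sum_add_distrib, ← Finset.sum_add_distrib]
    refine Finset.sum_congr rfl fun r _ => ?_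
    rcases hval r with h | h | h <;> rw [h] <;> norm_num
  have h4 : ∑ r ∈ LT k P.1.natDegree, chi r P.1 =
      (((LT k P.1.natDegree).filter fun r => chi r P.1 = 1).card : ℤ) -
      (((LT k P.1.natDegree).filter fun r => chi r P.1 = -1).card : ℤ) := by
    rw [Finset.card_filter, Finset.card_filter]
    push_cast
    rw [← Finset.sum_sub_distrib]
    refine Finset.sum_congr rfl fun r _ => ?_
    rcases hval r with h | h | h <;> rw [h] <;> norm_num
  rw [sum_chi h2 P] at h4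
  rw [h1, Finset.card_singleton, card_LT] at h3
  have h5 : nm P = 1 + (((LT k P.1.natDegree).filter fun r => chi r P.1 = 1).card : ℝ) +
      (((LT k P.1.natDegree).filter fun r => chi r P.1 = -1).card : ℝ) := by
    unfold nm
    exact_mod_cast h3
  have h6 : (((LT k P.1.natDegree).filter fun r => chi r P.1 = 1).card : ℝ) =
      (((LT k P.1.natDegree).filter fun r => chi r P.1 = -1).card : ℝ) := by
    have h7 : (((LT k P.1.natDegree).filter fun r => chi r P.1 = 1).card : ℤ) =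
      (((LT k P.1.natDegree).filter fun r => chi r P.1 = -1).card : ℤ) := by linarith
    exact_mod_cast h7
  rw [Finset.mem_insert, Finset.mem_singleton] at hw
  rcases hw with rfl | rfl <;> linarith

/-- residues modulo `P²` with a prescribed symbol -/
theorem cntC (h2 : (2 : k) ≠ 0) (P : MI k) {W : Finset ℤ} (hW : W ⊆ {1, -1}) :
    (((LT k (P.1 ^ 2).natDegree).filter fun r => chi r P.1 ∈ W).card : ℝ) =
      nm P * ((W.card : ℝ) / 2 * (nm P - 1)) := by
  have h1 := card_interval P.1 P.2.2.ne_zero (ρ := (P.1 ^ 2).natDegree)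
    (by rw [natDegree_pow]; omega) 0 (fun r => chi r P.1 ∈ W)
  simp only [zero_add, chi_mod _ (dvd_refl P.1)] at h1
  rw [h1]
  have h3 : (P.1 ^ 2).natDegree - P.1.natDegree = P.1.natDegree := by
    rw [natDegree_pow]
    omega
  rw [h3]
  have h4 : ((LT k P.1.natDegree).filter fun r => chi r P.1 ∈ W).card =
      ∑ w ∈ W, ((LT k P.1.natDegree).filter fun r => chi r P.1 = w).card := by
    rw [Finset.card_eq_sum_card_fiberwise (s := (LT k P.1.natDegree).filter fun r => chi r P.1 ∈ W)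
      (f := fun r => chi r P.1) (t := W) (fun r hr => (Finset.mem_filter.1 hr).2)]
    refine Finset.sum_congr rfl fun w hw => ?_
    rw [Finset.filter_filter]
    refine congrArg Finset.card (Finset.filter_congr fun r _ => ?_)
    constructor
    · rintro ⟨_, h⟩
      exact h
    · rintro rfl
      exact ⟨hw, rfl⟩
  rw [h4]
  push_cast
  rw [Finset.sum_congr rfl fun w hw => cnt_half h2 P (hW hw), Finset.sum_const, nsmul_eq_mul]
  unfold nm
  ring

/-- the product over finitely many primes is at least the density of the squarefree ones -/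
theorem prod_ge (A : Finset (MI k)) :
    1 - (Nat.card k : ℝ)⁻¹ ≤ ∏ P ∈ A, (1 - ((nm P)⁻¹) ^ 2) := by
  have hq0 : (0 : ℝ) < Nat.card k := by
    have : 0 < Nat.card k := Nat.card_pos
    exact_mod_cast this
  set n := (∏ P ∈ A, P.1 ^ 2 : k[X]).natDegree with hn
  have h1 := count (fun P r => ¬ P.1 ^ 2 ∣ r) A (N := n + 2) (by omega)
    (fun P => 1 - ((nm P)⁻¹) ^ 2) (fun P _ => by
      rw [← cntA P]
      congr!)
  have h2 : (US (1 : k[X]) (n + 2)).card ≤
      ((MD k (n + 2)).filter fun z => ∀ P ∈ A, ¬ P.1 ^ 2 ∣ z % P.1 ^ 2).card := by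
    apply Finset.card_le_card
    intro D hD
    rw [mem_US] at hD
    rw [Finset.mem_filter, mem_MD]
    refine ⟨⟨hD.1, hD.2.1⟩, fun P _ h => ?_⟩
    rw [dvd_mod' _ dvd_rfl, sq] at h
    exact P.2.2.not_isUnit (hD.2.2.2 P.1 h)
  have h3 : ((US (1 : k[X]) (n + 2)).card : ℝ) ≤
      (Nat.card k : ℝ) ^ (n + 2) * ∏ P ∈ A, (1 - ((nm P)⁻¹) ^ 2) := by
    rw [← h1]
    refine Nat.cast_le.2 (h2.trans (le_of_eq ?_))
    congr!
  have h4 := card_sqf (k := k) n
  have h5 : ((US (1 : k[X]) (n + 2)).card : ℝ) + (Nat.card k : ℝ) ^ (n + 1) =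
      (Nat.card k : ℝ) ^ (n + 2) := by exact_mod_cast h4
  have h6 : (Nat.card k : ℝ) ^ (n + 2) * (1 - (Nat.card k : ℝ)⁻¹) =
      (Nat.card k : ℝ) ^ (n + 2) - (Nat.card k : ℝ) ^ (n + 1) := by
    rw [pow_succ _ (n + 1)]
    field_simp
  have h7 : (Nat.card k : ℝ) ^ (n + 2) * (1 - (Nat.card k : ℝ)⁻¹) ≤
      (Nat.card k : ℝ) ^ (n + 2) * ∏ P ∈ A, (1 - ((nm P)⁻¹) ^ 2) := by linarith
  exact le_of_mul_le_mul_left h7 (by positivity)

/-- the polynomials divisible by the square of a large prime -/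
theorem tail (N z : ℕ) :
    (((MD k N).filter fun D => ∃ P : MI k, z < P.1.natDegree ∧ P.1 ^ 2 ∣ D).card : ℝ) ≤
      (Nat.card k : ℝ) ^ N * ((Nat.card k : ℝ)⁻¹) ^ z := by
  have hq2 : (2 : ℝ) ≤ Nat.card k := by
    have : 1 < Nat.card k := Finite.one_lt_card
    exact_mod_cast this
  have hq0 : (0 : ℝ) < Nat.card k := by linarith
  set J : Finset ℕ := (Finset.range N).filter fun j => 2 * (z + 1 + j) ≤ N with hJ
  have h1 : ((MD k N).filter fun D => ∃ P : MI k, z < P.1.natDegree ∧ P.1 ^ 2 ∣ D) ⊆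
      J.biUnion fun j => (MD k (z + 1 + j) ×ˢ MD k (N - 2 * (z + 1 + j))).image
        fun x => x.1 ^ 2 * x.2 := by
    intro D hD
    rw [Finset.mem_filter, mem_MD] at hD
    obtain ⟨⟨hm, hdeg⟩, P, hz, F, hF⟩ := hD
    have hFm : F.Monic := (P.2.1.pow 2).of_mul_monic_left (hF ▸ hm)
    have hd : N = 2 * P.1.natDegree + F.natDegree := by
      rw [← hdeg, hF, natDegree_mul (pow_ne_zero 2 P.2.2.ne_zero) hFm.ne_zero, natDegree_pow]
    rw [Finset.mem_biUnion]
    refine ⟨P.1.natDegree - (z + 1), ?_, ?_⟩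
    · rw [hJ, Finset.mem_filter, Finset.mem_range]
      omega
    · rw [Finset.mem_image]
      refine ⟨(P.1, F), ?_, hF.symm⟩
      rw [Finset.mem_product, mem_MD, mem_MD]
      exact ⟨⟨P.2.1, by dsimp only; omega⟩, ⟨hFm, by dsimp only; omega⟩⟩
  have h2 : (((MD k N).filter fun D => ∃ P : MI k, z < P.1.natDegree ∧ P.1 ^ 2 ∣ D).card : ℝ) ≤
      ∑ j ∈ J, (Nat.card k : ℝ) ^ (z + 1 + j) * (Nat.card k : ℝ) ^ (N - 2 * (z + 1 + j)) := by
    have h3 : ((MD k N).filter fun D => ∃ P : MI k, z < P.1.natDegree ∧ P.1 ^ 2 ∣ D).card ≤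
        ∑ j ∈ J, Nat.card k ^ (z + 1 + j) * Nat.card k ^ (N - 2 * (z + 1 + j)) := by
      refine (Finset.card_le_card h1).trans (Finset.card_biUnion_le.trans ?_)
      apply Finset.sum_le_sum
      intro j _
      refine Finset.card_image_le.trans ?_
      rw [Finset.card_product, card_MD, card_MD]
    exact_mod_cast h3
  refine h2.trans ?_
  have h3 : ∑ j ∈ J, (Nat.card k : ℝ) ^ (z + 1 + j) * (Nat.card k : ℝ) ^ (N - 2 * (z + 1 + j)) =
      ∑ j ∈ J, (Nat.card k : ℝ) ^ N * ((Nat.card k : ℝ)⁻¹) ^ (z + 1 + j) := by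
    refine Finset.sum_congr rfl fun j hj => ?_
    have hj2 : 2 * (z + 1 + j) ≤ N := (Finset.mem_filter.1 hj).2
    rw [pow_sub₀ _ hq0.ne' hj2, two_mul, pow_add _ (z + 1 + j) (z + 1 + j), inv_pow]
    field_simp
  rw [h3, ← Finset.mul_sum]
  refine mul_le_mul_of_nonneg_left ?_ (by positivity)
  have h4 : ∑ j ∈ J, ((Nat.card k : ℝ)⁻¹) ^ (z + 1 + j) ≤
      ∑ j ∈ Finset.range N, ((Nat.card k : ℝ)⁻¹) ^ (z + 1 + j) :=
    Finset.sum_le_sum_of_subset_of_nonneg (Finset.filter_subset _ _) fun j _ _ => by positivity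
  have h5 : ∀ n : ℕ, ∑ j ∈ Finset.range n, ((Nat.card k : ℝ)⁻¹) ^ (z + 1 + j) ≤
      ((Nat.card k : ℝ)⁻¹) ^ z - ((Nat.card k : ℝ)⁻¹) ^ (z + n) := by
    intro n
    induction n with
    | zero => simp
    | succ n ih =>
      rw [Finset.sum_range_succ]
      have h6 : ((Nat.card k : ℝ)⁻¹) ^ (z + 1 + n) = ((Nat.card k : ℝ)⁻¹) ^ (z + n) *
          (Nat.card k : ℝ)⁻¹ := by
        rw [← pow_succ]
        congr 1
        omega
      have h7 : ((Nat.card k : ℝ)⁻¹) ^ (z + (n + 1)) = ((Nat.card k : ℝ)⁻¹) ^ (z + n) *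
          (Nat.card k : ℝ)⁻¹ := by
        rw [← pow_succ]
        congr 1
      have h8 : (Nat.card k : ℝ)⁻¹ ≤ 1 / 2 := by
        rw [one_div]
        exact inv_anti₀ (by norm_num) hq2
      have h9 : ((Nat.card k : ℝ)⁻¹) ^ (z + n) * (Nat.card k : ℝ)⁻¹ ≤
          ((Nat.card k : ℝ)⁻¹) ^ (z + n) * (1 / 2) :=
        mul_le_mul_of_nonneg_left h8 (by positivity)
      rw [h6, h7]
      linarith
  have h6 := h5 N
  have h7 : (0 : ℝ) ≤ ((Nat.card k : ℝ)⁻¹) ^ (z + N) := by positivity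
  linarith

/-- the local factor -/
noncomputable def la (m n : k[X]) (W : MI k → Finset ℤ) (P : MI k) : ℝ :=
  if P.1 ∣ m then (nm P + 1)⁻¹ else
    if P.1 ∣ n then nm P / (nm P + 1) * (((W P).card : ℝ) / 2) else 1

/-- the local condition -/
def lR (m n : k[X]) (W : MI k → Finset ℤ) (P : MI k) (r : k[X]) : Prop :=
  if P.1 ∣ m then (P.1 ∣ r ∧ ¬ P.1 ^ 2 ∣ r) else
    if P.1 ∣ n then chi r P.1 ∈ W P else ¬ P.1 ^ 2 ∣ r

theorem cntR (h2 : (2 : k) ≠ 0) (m n : k[X]) {W : MI k → Finset ℤ} (hW : ∀ P, W P ⊆ {1, -1})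
    (P : MI k) : (((LT k (P.1 ^ 2).natDegree).filter (lR m n W P)).card : ℝ) =
      nm P ^ 2 * (la m n W P * (1 - ((nm P)⁻¹) ^ 2)) := by
  have hp := nm_pos P
  by_cases hm : P.1 ∣ m
  · have e : (lR m n W P) = fun r => (P.1 ∣ r ∧ ¬ P.1 ^ 2 ∣ r) := by
      funext r
      unfold lR
      rw [if_pos hm]
    have e2 := cntB P
    unfold la
    rw [if_pos hm]
    have e3 : nm P ^ 2 * ((nm P + 1)⁻¹ * (1 - ((nm P)⁻¹) ^ 2)) = nm P - 1 := by
      field_simp
      ring
    rw [e3, ← e2]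
    simp only [e]
  · by_cases hn : P.1 ∣ n
    · have e : (lR m n W P) = fun r => chi r P.1 ∈ W P := by
        funext r
        unfold lR
        rw [if_neg hm, if_pos hn]
      have e2 := cntC h2 P (hW P)
      unfold la
      rw [if_neg hm, if_pos hn]
      have e3 : nm P ^ 2 * (nm P / (nm P + 1) * (((W P).card : ℝ) / 2) * (1 - ((nm P)⁻¹) ^ 2)) =
          nm P * (((W P).card : ℝ) / 2 * (nm P - 1)) := by
        field_simp
        ring
      rw [e3, ← e2]
      simp only [e]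
    · have e : (lR m n W P) = fun r => ¬ P.1 ^ 2 ∣ r := by
        funext r
        unfold lR
        rw [if_neg hm, if_neg hn]
      have e2 := cntA P
      unfold la
      rw [if_neg hm, if_neg hn, one_mul, ← e2]
      simp only [e]

theorem prod_la {m n : k[X]} (hm : m ≠ 0) (hn : n ≠ 0) (hmn : IsCoprime m n)
    (W : MI k → Finset ℤ) (T : Finset (MI k)) :
    ∏ P ∈ T ∪ (pd m ∪ pd n), la m n W P =
      (∏ P ∈ pd m, (nm P + 1)⁻¹) * (∏ P ∈ pd n, nm P / (nm P + 1)) * rw2 n W := by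
  have h1 : ∏ P ∈ T ∪ (pd m ∪ pd n), la m n W P = ∏ P ∈ pd m ∪ pd n, la m n W P := by
    symm
    apply Finset.prod_subset Finset.subset_union_right
    intro P _ hP
    rw [Finset.mem_union, mem_pd hm, mem_pd hn, not_or] at hP
    unfold la
    rw [if_neg hP.1, if_neg hP.2]
  rw [h1, Finset.prod_union (pd_disj hm hn hmn)]
  have h2 : ∏ P ∈ pd m, la m n W P = ∏ P ∈ pd m, (nm P + 1)⁻¹ := by
    refine Finset.prod_congr rfl fun P hP => ?_
    rw [mem_pd hm] at hP
    unfold la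
    rw [if_pos hP]
  have h3 : ∏ P ∈ pd n, la m n W P =
      (∏ P ∈ pd n, nm P / (nm P + 1)) * rw2 n W := by
    unfold rw2
    rw [← Finset.prod_mul_distrib]
    refine Finset.prod_congr rfl fun P hP => ?_
    have hP2 : ¬ P.1 ∣ m := by
      intro h
      exact Finset.disjoint_left.1 (pd_disj hm hn hmn) ((mem_pd hm).2 h) hP
    rw [mem_pd hn] at hP
    unfold la
    rw [if_neg hP2, if_pos hP]
  rw [h2, h3]
  ring

theorem mem_DSc {m n : k[X]} (hm : m.Monic) (hms : Squarefree m) {W : MI k → Finset ℤ}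
    (hW : ∀ P, W P ⊆ {1, -1}) (hmn : IsCoprime m n) (hn0 : n ≠ 0) {g z : ℕ} {D : k[X]}
    (hD : D ∈ MD k (2 * g + 1))
    (hR : ∀ P ∈ (finite_deg_le (F := k) z).toFinset ∪ (pd m ∪ pd n), lR m n W P (D % P.1 ^ 2))
    (hz : ¬ ∃ P : MI k, z < P.1.natDegree ∧ P.1 ^ 2 ∣ D) : D ∈ DSc g m n W := by
  rw [mem_MD] at hD
  have hPm : ∀ P : MI k, P.1 ∣ m → P.1 ∣ D ∧ ¬ P.1 ^ 2 ∣ D := by
    intro P hP
    have h1 := hR P (Finset.mem_union_right _ (Finset.mem_union_left _ ((mem_pd hm.ne_zero).2 hP)))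
    unfold lR at h1
    rwa [if_pos hP, dvd_mod' _ (dvd_pow_self _ two_ne_zero), dvd_mod' _ dvd_rfl] at h1
  have hPn : ∀ P : MI k, P.1 ∣ n → chi D P.1 ∈ W P := by
    intro P hP
    have h1 := hR P (Finset.mem_union_right _ (Finset.mem_union_right _ ((mem_pd hn0).2 hP)))
    have hP2 : ¬ P.1 ∣ m := fun h => P.2.2.not_isUnit (hmn.isUnit_of_dvd' h hP)
    unfold lR at h1
    rwa [if_neg hP2, if_pos hP, chi_mod _ (dvd_pow_self _ two_ne_zero)] at h1
  have hsq : ∀ P : MI k, ¬ P.1 ^ 2 ∣ D := by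
    intro P h
    by_cases h1 : P.1 ∣ m
    · exact (hPm P h1).2 h
    · by_cases h2 : P.1 ∣ n
      · have h3 := hW P (hPn P h2)
        have h4 : chi D P.1 = 0 := by
          unfold chi
          rw [if_pos ((dvd_pow_self _ two_ne_zero).trans h)]
        rw [h4] at h3
        simp at h3
      · by_cases h3 : P.1.natDegree ≤ z
        · have h4 := hR P (Finset.mem_union_left _ ((Set.Finite.mem_toFinset _).2 h3))
          unfold lR at h4
          rw [if_neg h1, if_neg h2, dvd_mod' _ dvd_rfl] at h4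
          exact h4 h
        · exact hz ⟨P, by omega, h⟩
  have hsqf : Squarefree D := by
    intro x hx
    by_contra hu
    have hx0 : x ≠ 0 := by
      rintro rfl
      rw [zero_mul, zero_dvd_iff] at hx
      exact hD.1.ne_zero hx
    have h1 : (normalize x).Monic := monic_normalize hx0
    have h2 : Associated (normalize x) x := normalize_associated x
    have h3 : 0 < (normalize x).natDegree := by
      rw [Nat.pos_iff_ne_zero]
      intro h0
      apply hu
      rw [← h2.isUnit_iff, h1.natDegree_eq_zero.1 h0]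
      exact isUnit_one
    obtain ⟨P, hP⟩ := exists_MI h1 h3
    have hPx : P.1 ∣ x := hP.trans h2.dvd
    exact hsq P (by rw [sq]; exact (mul_dvd_mul hPx hPx).trans hx)
  unfold DSc
  rw [Finset.mem_filter, mem_DS]
  refine ⟨⟨hD.1, hD.2, hsqf, dvd_of_primes hm hms fun P hP => (hPm P hP).1⟩, ?_⟩
  intro P hP
  exact hPn P hP

theorem SC2 (h2 : (2 : k) ≠ 0) : Pool.Agent.Y711.StC2 k := by
  intro m n hm hn hs W hW ε hε
  have hq2 : (2 : ℝ) ≤ Nat.card k := by
    have : 1 < Nat.card k := Finite.one_lt_card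
    exact_mod_cast this
  have hq0 : (0 : ℝ) < Nat.card k := by linarith
  have hms : Squarefree m := hs.squarefree_of_dvd (dvd_mul_right _ _)
  have hmn : IsCoprime m n := (squarefree_mul_iff.1 hs).1.isCoprime
  have hq1 : (Nat.card k : ℝ)⁻¹ < 1 := inv_lt_one_of_one_lt₀ (by linarith)
  obtain ⟨z, hz⟩ := exists_pow_lt_of_lt_one hε hq1
  set S : Finset (MI k) := (finite_deg_le (F := k) z).toFinset ∪ (pd m ∪ pd n) with hS
  refine ⟨(∏ P ∈ S, P.1 ^ 2 : k[X]).natDegree, fun g hg => ?_⟩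
  have h1 := count (lR m n W) S (N := 2 * g + 1) (by omega)
    (fun P => la m n W P * (1 - ((nm P)⁻¹) ^ 2)) (fun P _ => cntR h2 m n hW P)
  have h3 := tail (k := k) (2 * g + 1) z
  set A := (MD k (2 * g + 1)).filter fun z => ∀ P ∈ S, lR m n W P (z % P.1 ^ 2) with hA
  set B := (MD k (2 * g + 1)).filter fun D => ∃ P : MI k, z < P.1.natDegree ∧ P.1 ^ 2 ∣ D with hB
  have h4 : A ⊆ DSc g m n W ∪ B := by
    intro D hD
    rw [hA, Finset.mem_filter] at hD
    rw [Finset.mem_union]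
    by_cases h5 : ∃ P : MI k, z < P.1.natDegree ∧ P.1 ^ 2 ∣ D
    · right
      rw [hB, Finset.mem_filter]
      exact ⟨hD.1, h5⟩
    · left
      exact mem_DSc hm hms hW hmn hn.ne_zero hD.1 hD.2 h5
  have h5 : (A.card : ℝ) ≤ (DSc g m n W).card + B.card := by
    exact_mod_cast (Finset.card_le_card h4).trans (Finset.card_union_le _ _)
  rw [h1, Finset.prod_mul_distrib, prod_la hm.ne_zero hn.ne_zero hmn W] at h5
  have h6 := prod_ge S
  set w : ℝ := (∏ P ∈ pd m, (nm P + 1)⁻¹) * (∏ P ∈ pd n, nm P / (nm P + 1)) * rw2 n W with hw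
  have hw0 : 0 ≤ w := by
    rw [hw]
    unfold rw2
    refine mul_nonneg (mul_nonneg ?_ ?_) ?_
    · exact Finset.prod_nonneg fun P _ => by have := nm_pos P; positivity
    · exact Finset.prod_nonneg fun P _ => by have := nm_pos P; positivity
    · exact Finset.prod_nonneg fun P _ => by positivity
  have h7 : w * (1 - (Nat.card k : ℝ)⁻¹) ≤ w * ∏ P ∈ S, (1 - ((nm P)⁻¹) ^ 2) :=
    mul_le_mul_of_nonneg_left h6 hw0
  have h8 : (0 : ℝ) < (Nat.card k : ℝ) ^ (2 * g + 1) := by positivity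
  have h9 : (Nat.card k : ℝ) ^ (2 * g + 1) * (w * (1 - (Nat.card k : ℝ)⁻¹)) ≤
      (Nat.card k : ℝ) ^ (2 * g + 1) * (w * ∏ P ∈ S, (1 - ((nm P)⁻¹) ^ 2)) :=
    mul_le_mul_of_nonneg_left h7 h8.le
  have h10 : (Nat.card k : ℝ) ^ (2 * g + 1) * ((Nat.card k : ℝ)⁻¹) ^ z ≤
      (Nat.card k : ℝ) ^ (2 * g + 1) * ε := mul_le_mul_of_nonneg_left hz.le h8.le
  have h11 : (1 - (Nat.card k : ℝ)⁻¹) * (∏ P ∈ pd m, (nm P + 1)⁻¹) *
      (∏ P ∈ pd n, nm P / (nm P + 1)) * rw2 n W - ε = w * (1 - (Nat.card k : ℝ)⁻¹) - ε := by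
    rw [hw]
    ring
  rw [h11, mul_sub]
  linarith

end

end Pool.Agent.Y779.SC
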